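import Mathlib

namespace Pool.Agent.H.MP_92974c_pr

open MeasureTheory Set Real
open scoped ENNReal

lemma scale {c : ℂ} (hc : c ≠ 0) {f : ℂ → ℝ≥0∞} (hf : Measurable f) :
    ∫⁻ z, f z = ENNReal.ofReal (‖c‖ ^ 2) * ∫⁻ w, f (c * w) := by
  have h0 : 0 < ‖c‖ ^ 2 := by positivity
  have hd : LinearMap.det (Algebra.lmul ℝ ℂ c) = ‖c‖ ^ 2 := by
    rw [← Complex.normSq_eq_norm_sq, ← Algebra.norm_complex_apply]; rfl
  have := Measure.map_linearMap_addHaar_eq_smul_addHaar (volume : Measure ℂ)
    (f := Algebra.lmul ℝ ℂ c) (by rw [hd]; exact h0.ne')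
  have e : ∫⁻ w, f (c * w) = ∫⁻ z, f z ∂(Measure.map (Algebra.lmul ℝ ℂ c) volume) :=
    (lintegral_map hf (measurable_const_mul c)).symm
  rw [e, this, hd, lintegral_smul_measure, smul_eq_mul, ← mul_assoc, ← ENNReal.ofReal_mul h0.le,
    abs_of_pos (inv_pos.mpr h0), mul_inv_cancel₀ h0.ne', ENNReal.ofReal_one, one_mul]

lemma polar {f : ℂ → ℝ≥0∞} (hf : Measurable f) : ∫⁻ z, f z = ∫⁻ t in Ioo (-π) π, ∫⁻ r in Ioi 0,
    ENNReal.ofReal r * f (r * (cos t + sin t * Complex.I)) := by
  rw [← Complex.lintegral_comp_polarCoord_symm, polarCoord_target, Measure.volume_eq_prod,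
    ← Measure.prod_restrict, lintegral_prod_symm']
  · simp only [Complex.polarCoord_symm_apply, smul_eq_mul]
  · simp only [Complex.polarCoord_symm_apply, smul_eq_mul]
    exact (by fun_prop : Measurable fun p : ℝ × ℝ => ENNReal.ofReal p.1).mul (hf.comp (by fun_prop))

lemma lint_le {f : ℝ → ℝ} (hf : Continuous f) {a b : ℝ} (h : a ≤ b) :
    ENNReal.ofReal (∫ x in a..b, f x) ≤ ∫⁻ x in Ioc a b, ENNReal.ofReal (f x) := by
  have hi : IntegrableOn f (Ioc a b) := (hf.intervalIntegrable a b).1
  rw [intervalIntegral.integral_of_le h, lintegral_congr (g := fun x => ENNReal.ofReal (max (f x) 0))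
    fun x => by simp [ENNReal.ofReal_max], ← ofReal_integral_eq_lintegral_ofReal hi.pos_part (ae_of_all _ fun x => le_max_right _ _)]
  exact ENNReal.ofReal_le_ofReal (integral_mono hi hi.pos_part fun x => le_max_left _ _)

lemma lint_eq {f : ℝ → ℝ} (hf : Continuous f) {a b : ℝ} (h : a ≤ b) (h0 : ∀ x ∈ Ioc a b, 0 ≤ f x) :
    ∫⁻ x in Ioc a b, ENNReal.ofReal (f x) = ENNReal.ofReal (∫ x in a..b, f x) := by
  rw [intervalIntegral.integral_of_le h, ofReal_integral_eq_lintegral_ofReal
    (hf.intervalIntegrable a b).1 ((ae_restrict_iff' measurableSet_Ioc).mpr (ae_of_all _ h0))]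

lemma rad (n : ℕ) (R : ℝ) {g : ℝ → ℝ≥0∞}
    (hg : ∀ r, 0 < r → g r ≤ if r ≤ R then ENNReal.ofReal (r ^ n) else 0) :
    ∫⁻ r in Ioi 0, g r ≤ ENNReal.ofReal (max R 0 ^ (n + 1) / (n + 1)) := by
  calc _ ≤ ∫⁻ r in Ioi 0, (Iic (max R 0)).indicator (fun r => ENNReal.ofReal (r ^ n)) r := by
        refine setLIntegral_mono' measurableSet_Ioi fun r hr => (hg r hr).trans ?_
        split_ifs with h
        · rw [indicator_of_mem (show r ∈ Iic (max R 0) from le_max_of_le_left h)]
        · exact zero_le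
    _ = _ := by
        rw [lintegral_indicator measurableSet_Iic, Measure.restrict_restrict measurableSet_Iic,
          Iic_inter_Ioi, lint_eq (by fun_prop) (le_max_right _ _) fun x hx => pow_nonneg hx.1.le _]
        simp

noncomputable def ω : ℂ := ⟨1 / 2, √3 / 2⟩

lemma s3 : √3 * √3 = 3 := Real.mul_self_sqrt (by norm_num)

lemma ω_sq : ω * ω = ω - 1 := by
  apply Complex.ext <;> simp [ω] <;> nlinarith [s3]

lemma ω_norm : ‖ω‖ = 1 := by
  rw [← sq_eq_sq₀ (norm_nonneg _) zero_le_one, ← Complex.normSq_eq_norm_sq]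
  simp [ω, Complex.normSq_apply]
  nlinarith [s3]

noncomputable def G (S : Set ℂ) (w : ℂ) : ℝ≥0∞ :=
  ∫⁻ v, ENNReal.ofReal (‖v‖ ^ 2) * volume {x | x ∈ S ∧ x + v ∈ S ∧ x + w * v ∈ S}

lemma G_symm (S : Set ℂ) (w : ℂ) : G S (1 - w) = G S w := by
  unfold G
  rw [← lintegral_neg_eq_self]
  refine lintegral_congr fun v => ?_
  rw [norm_neg, ← measure_preimage_add_right volume v]
  congr 2
  ext x
  simp only [mem_preimage, mem_ofPred_eq, add_neg_cancel_right]
  rw [show x + v + (1 - w) * -v = x + w * v by ring]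
  tauto

lemma cos4 (a b : ℝ) : ∫ t in a..b, (2 * cos t) ^ 4 / 4 =
    3 * (b - a) / 2 + (sin (2 * b) - sin (2 * a)) + (sin (2 * (2 * b)) - sin (2 * (2 * a))) / 8 := by
  rw [intervalIntegral.integral_eq_sub_of_hasDerivAt
    (f := fun t => 3 * t / 2 + sin (2 * t) + sin (2 * (2 * t)) / 8) (fun t _ => ?_)
    (Continuous.intervalIntegrable (by fun_prop) _ _)]
  · ring
  · have h1 := (hasDerivAt_id t).const_mul 2
    refine ((((hasDerivAt_id t).const_mul 3).div_const 2 |>.fun_add h1.sin).fun_add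
      ((h1.const_mul 2).sin.div_const 8)).congr_deriv ?_
    simp only [id, cos_two_mul]
    ring

lemma lens : ∫⁻ t : ℂ, {t | ‖1 - t‖ ≤ 1 ∧ ‖1 - ω * t‖ ≤ 1}.indicator
    (fun t => ENNReal.ofReal (‖t‖ ^ 2)) t ≤ ENNReal.ofReal (π - 9 * √3 / 8) := by
  have hm : MeasurableSet {t : ℂ | ‖1 - t‖ ≤ 1 ∧ ‖1 - ω * t‖ ≤ 1} := by measurability
  rw [polar ((by fun_prop : Measurable fun t : ℂ => ENNReal.ofReal (‖t‖ ^ 2)).indicator hm)]
  have p := pi_pos
  have key : ∀ t ∈ Ioo (-π) π, ∫⁻ r in Ioi 0, ENNReal.ofReal r *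
      {t : ℂ | ‖1 - t‖ ≤ 1 ∧ ‖1 - ω * t‖ ≤ 1}.indicator (fun t => ENNReal.ofReal (‖t‖ ^ 2))
        (r * (cos t + sin t * Complex.I)) ≤
      (Ioc (-(π / 2)) (-(π / 6))).indicator (fun t => ENNReal.ofReal ((2 * cos t) ^ 4 / 4)) t +
      (Ioc (-(π / 6)) (π / 6)).indicator
        (fun t => ENNReal.ofReal ((2 * cos (t + π / 3)) ^ 4 / 4)) t := fun t ht => by
    refine (rad 3 (min (2 * cos t) (2 * cos (t + π / 3))) fun r hr => ?_).trans ?_
    · by_cases h : (r * (cos t + sin t * Complex.I) : ℂ) ∈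
          {t : ℂ | ‖1 - t‖ ≤ 1 ∧ ‖1 - ω * t‖ ≤ 1}
      · rw [indicator_of_mem h, if_pos, ← Complex.polarCoord_symm_apply (r, t),
          Complex.norm_polarCoord_symm, sq_abs, ← ENNReal.ofReal_mul hr.le]
        · exact le_of_eq (by ring_nf)
        · obtain ⟨h1, h2⟩ := h
          rw [← sq_le_one_iff₀ (norm_nonneg _), ← Complex.normSq_eq_norm_sq,
            Complex.normSq_apply] at h1 h2
          simp [ω, -Complex.ofReal_cos, -Complex.ofReal_sin] at h1 h2
          have := sin_sq_add_cos_sq t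
          have := s3
          rw [cos_add, cos_pi_div_three, sin_pi_div_three]
          refine le_min (le_of_mul_le_mul_left ?_ hr) (le_of_mul_le_mul_left ?_ hr)
          · nlinarith
          · have e : (1 - (2⁻¹ * (r * cos t) - √3 / 2 * (r * sin t))) *
                (1 - (2⁻¹ * (r * cos t) - √3 / 2 * (r * sin t))) +
                (2⁻¹ * (r * sin t) + √3 / 2 * (r * cos t)) *
                (2⁻¹ * (r * sin t) + √3 / 2 * (r * cos t)) =
                1 - r * (2 * (cos t * (1 / 2) - sin t * (√3 / 2))) + r * r := by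
              linear_combination (r ^ 2 * (sin t ^ 2 + cos t ^ 2) / 4) * s3 +
                r ^ 2 * sin_sq_add_cos_sq t
            nlinarith
      · rw [indicator_of_notMem h, mul_zero]
        exact zero_le
    · by_cases h : min (2 * cos t) (2 * cos (t + π / 3)) ≤ 0
      · simp [max_eq_right h]
      · rw [not_le, lt_min_iff] at h
        have h1 : -(π / 2) < t := by
          by_contra hc
          have := cos_nonpos_of_pi_div_two_le_of_le (x := -t) (by linarith) (by linarith [ht.1])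
          rw [cos_neg] at this
          linarith
        have h2 : t ≤ π / 6 := by
          by_contra hc
          have := cos_nonpos_of_pi_div_two_le_of_le (x := t + π / 3) (by linarith)
            (by linarith [ht.2])
          linarith
        have h3 : 0 ≤ min (2 * cos t) (2 * cos (t + π / 3)) := (lt_min h.1 h.2).le
        rw [max_eq_left h3]
        by_cases h4 : t ≤ -(π / 6)
        · rw [indicator_of_mem (show t ∈ Ioc _ _ from ⟨h1, h4⟩)]
          refine le_add_right (ENNReal.ofReal_le_ofReal ?_)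
          norm_num
          gcongr
          exact min_le_left _ _
        · rw [indicator_of_mem (show t ∈ Ioc _ _ from ⟨not_le.mp h4, h2⟩)]
          refine le_add_left (ENNReal.ofReal_le_ofReal ?_)
          norm_num
          gcongr
          exact min_le_right _ _
  refine (setLIntegral_mono' measurableSet_Ioo key).trans
    ((setLIntegral_le_lintegral _ _).trans_eq ?_)
  rw [lintegral_add_left (Measurable.indicator (by fun_prop) measurableSet_Ioc),
    lintegral_indicator measurableSet_Ioc, lintegral_indicator measurableSet_Ioc,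
    lint_eq (by fun_prop) (by linarith) fun _ _ => by positivity,
    lint_eq (by fun_prop) (by linarith) fun _ _ => by positivity,
    ← ENNReal.ofReal_add (intervalIntegral.integral_nonneg (by linarith) fun _ _ => by positivity)
      (intervalIntegral.integral_nonneg (by linarith) fun _ _ => by positivity),
    intervalIntegral.integral_comp_add_right (fun t => (2 * cos t) ^ 4 / 4), cos4, cos4]
  congr 1
  rw [show -(π / 6) + π / 3 = π / 6 by ring, show π / 6 + π / 3 = π / 2 by ring]
  simp only [mul_neg, sin_neg, show 2 * (π / 6) = π / 3 by ring, show 2 * (π / 2) = π by ring,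
    sin_two_mul (π / 3), sin_pi, sin_two_pi, sin_pi_div_three, cos_pi_div_three]
  ring

lemma disk {m : ℝ} (hm : 0 ≤ m) :
    G (Metric.closedBall 0 m) ω ≤ ENNReal.ofReal (π * m ^ 6 * (π - 9 * √3 / 8)) := by
  let K : Set (ℂ × ℂ) := {p | ‖p.2‖ ≤ m ∧ ‖p.2 + p.1‖ ≤ ‖p.2‖ ∧ ‖p.2 + ω * p.1‖ ≤ ‖p.2‖}
  have hK : MeasurableSet K := by measurability
  let k : ℂ → ℝ≥0∞ := fun v => ENNReal.ofReal (‖v‖ ^ 2) * volume (Prod.mk v ⁻¹' K)
  have hk : Measurable k := (by fun_prop : Measurable fun v : ℂ => ENNReal.ofReal (‖v‖ ^ 2)).mul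
    (measurable_measure_prodMk_left hK)
  have o1 : ‖ω - 1‖ = 1 := by rw [← ω_sq, norm_mul, ω_norm, one_mul]
  have o2 : ‖-ω‖ = 1 := by rw [norm_neg, ω_norm]
  have rot : ∀ c : ℂ, ‖c‖ = 1 → ∫⁻ v, k (c * v) = ∫⁻ v, k v := fun c hc => by
    rw [scale (c := c) (by rintro rfl; simp at hc) hk, hc]
    simp
  have h1 : G (Metric.closedBall 0 m) ω ≤ 3 * ∫⁻ v, k v := by
    rw [show 3 * ∫⁻ v, k v = (∫⁻ v, k v) + (∫⁻ v, k ((ω - 1) * v)) + ∫⁻ v, k (-ω * v) by
      rw [rot _ o1, rot _ o2]; ring, ← lintegral_add_left hk,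
      ← lintegral_add_right _ (g := fun v => k (-ω * v)) (hk.comp (measurable_const_mul _))]
    refine lintegral_mono fun v => ?_
    simp only [k, norm_mul, o1, o2, one_mul, ← mul_add]
    gcongr
    rw [← measure_preimage_add_right volume v (Prod.mk ((ω - 1) * v) ⁻¹' K),
      ← measure_preimage_add_right volume (ω * v) (Prod.mk (-ω * v) ⁻¹' K)]
    refine le_trans (measure_mono fun x hx => ?_) ((measure_union_le _ _).trans
      (add_le_add_left (measure_union_le _ _) _))
    simp only [mem_ofPred_eq, mem_closedBall_zero_iff, mem_union, mem_preimage, K] at hx ⊢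
    rw [show x + v + (ω - 1) * v = x + ω * v by ring,
      show x + v + ω * ((ω - 1) * v) = x by linear_combination v * ω_sq,
      show x + ω * v + -ω * v = x by ring,
      show x + ω * v + ω * (-ω * v) = x + v by linear_combination -v * ω_sq]
    grind
  have hI : Measurable (K.indicator fun p => ENNReal.ofReal (‖p.1‖ ^ 2)) :=
    Measurable.indicator (by fun_prop) hK
  have h2 : ∫⁻ v, k v = ∫⁻ x, ∫⁻ v, K.indicator (fun p => ENNReal.ofReal (‖p.1‖ ^ 2)) (v, x) := by
    rw [← lintegral_lintegral_swap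
      (f := fun v x => K.indicator (fun p => ENNReal.ofReal (‖p.1‖ ^ 2)) (v, x)) hI.aemeasurable]
    refine lintegral_congr fun v => ?_
    simp only [k]
    rw [← setLIntegral_const, ← lintegral_indicator (measurable_prodMk_left hK)]
    rfl
  have h3 : ∀ x : ℂ, x ≠ 0 → ∫⁻ v, K.indicator (fun p => ENNReal.ofReal (‖p.1‖ ^ 2)) (v, x) ≤
      (Metric.closedBall 0 m).indicator (fun x => ENNReal.ofReal (‖x‖ ^ 4)) x *
        ENNReal.ofReal (π - 9 * √3 / 8) := fun x hx => by
    by_cases h : ‖x‖ ≤ m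
    · rw [scale (neg_ne_zero.mpr hx)
        (f := fun v => K.indicator (fun p => ENNReal.ofReal (‖p.1‖ ^ 2)) (v, x))
        (hI.comp measurable_prodMk_right), indicator_of_mem (mem_closedBall_zero_iff.mpr h),
        show ‖x‖ ^ 4 = ‖x‖ ^ 2 * ‖x‖ ^ 2 by ring, ENNReal.ofReal_mul (by positivity), mul_assoc,
        norm_neg]
      gcongr
      refine le_trans (lintegral_mono fun t => ?_) ((lintegral_const_mul' _ _
        ENNReal.ofReal_ne_top).trans_le (mul_le_mul_right lens _))
      by_cases h4 : (-x * t, x) ∈ K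
      · have h5 := h4.2
        have x0 := norm_pos_iff.mpr hx
        simp only [show x + -x * t = x * (1 - t) by ring,
          show x + ω * (-x * t) = x * (1 - ω * t) by ring, norm_mul, mul_le_iff_le_one_right x0] at h5
        rw [indicator_of_mem h4, indicator_of_mem (by exact h5), norm_mul, mul_pow,
          norm_neg, ENNReal.ofReal_mul (by positivity)]
      · rw [indicator_of_notMem h4]
        exact zero_le
    · rw [lintegral_congr fun v => indicator_of_notMem (fun h' => h h'.1) _, lintegral_zero]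
      exact zero_le
  have h4 : ∫⁻ x : ℂ, (Metric.closedBall 0 m).indicator (fun x => ENNReal.ofReal (‖x‖ ^ 4)) x ≤
      ENNReal.ofReal (π * m ^ 6 / 3) := by
    rw [polar (Measurable.indicator (by fun_prop) measurableSet_closedBall)]
    refine (setLIntegral_mono' measurableSet_Ioo fun t _ => rad 5 m fun r hr => ?_).trans_eq ?_
    · simp only [indicator, mem_closedBall_zero_iff, ← Complex.polarCoord_symm_apply (r, t),
        Complex.norm_polarCoord_symm, abs_of_pos hr]
      split_ifs
      · rw [← ENNReal.ofReal_mul hr.le]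
        exact le_of_eq (by ring_nf)
      · simp
    · rw [setLIntegral_const, max_eq_left hm, Real.volume_Ioo, ← ENNReal.ofReal_mul (by positivity)]
      congr 1
      push_cast
      ring
  refine h1.trans ?_
  rw [h2, show π * m ^ 6 * (π - 9 * √3 / 8) = 3 * (π * m ^ 6 / 3 * (π - 9 * √3 / 8)) by ring,
    ENNReal.ofReal_mul (by norm_num), ENNReal.ofReal_mul (by positivity), ENNReal.ofReal_ofNat]
  gcongr
  refine (lintegral_mono_ae ((Measure.ae_ne volume 0).mono h3)).trans ?_
  rw [lintegral_mul_const' _ _ ENNReal.ofReal_ne_top]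
  gcongr

end Pool.Agent.H.MP_92974c_pr
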