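import Pool.Agent.H.MP_92974c_pr.A

namespace Pool.Agent.H.MP_92974c_pr

open MeasureTheory Set Real
open scoped ENNReal

def Q (l : ℝ) : Set ℂ := {z | |z.re| ≤ l ∧ |z.im| ≤ l}

lemma rect (a b c d : ℝ) : volume {z : ℂ | z.re ∈ Icc a b ∧ z.im ∈ Icc c d} =
    ENNReal.ofReal (b - a) * ENNReal.ofReal (d - c) := by
  rw [← Real.volume_Icc, ← Real.volume_Icc, ← Measure.prod_prod, ← Measure.volume_eq_prod,
    ← Complex.volume_preserving_equiv_real_prod.measure_preimage
      (measurableSet_Icc.prod measurableSet_Icc).nullMeasurableSet]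
  rfl

noncomputable def W (a b : ℝ) : ℝ := max (max |a| |a / 2 - √3 * b / 2|) |a / 2 + √3 * b / 2|

lemma W_mul {r : ℝ} (hr : 0 ≤ r) (a b : ℝ) : W (r * a) (r * b) = r * W a b := by
  simp only [W, mul_max_of_nonneg _ _ hr]
  rw [show r * a / 2 - √3 * (r * b) / 2 = r * (a / 2 - √3 * b / 2) by ring,
    show r * a / 2 + √3 * (r * b) / 2 = r * (a / 2 + √3 * b / 2) by ring]
  simp only [abs_mul, abs_of_nonneg hr]

lemma area (l : ℝ) (v : ℂ) : ENNReal.ofReal (2 * l - W v.re v.im) *
    ENNReal.ofReal (2 * l - W v.im v.re) ≤ volume {x | x ∈ Q l ∧ x + v ∈ Q l ∧ x + ω * v ∈ Q l} := by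
  have e1 : (ω * v).re = v.re / 2 - √3 * v.im / 2 := by simp [ω]; ring
  have e2 : (ω * v).im = v.im / 2 + √3 * v.re / 2 := by simp [ω]; ring
  refine le_trans ?_ ((rect (-l - min (min 0 v.re) (ω * v).re) (l - max (max 0 v.re) (ω * v).re)
    (-l - min (min 0 v.im) (ω * v).im) (l - max (max 0 v.im) (ω * v).im)).ge.trans
      (measure_mono fun x hx => ?_))
  · simp only [e1, e2, W]
    generalize √3 * v.im / 2 = a
    generalize √3 * v.re / 2 = b
    refine mul_le_mul' (ENNReal.ofReal_le_ofReal ?_) (ENNReal.ofReal_le_ofReal ?_) <;>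
      grind (splits := 40)
  · simp only [Q, mem_ofPred_eq, mem_Icc, Complex.add_re, Complex.add_im, abs_le] at hx ⊢
    grind (splits := 40)

lemma shift (h : ℝ → ℝ≥0∞) (a b c : ℝ) :
    ∫⁻ x in Ioc a b, h (x + c) = ∫⁻ x in Ioc (a + c) (b + c), h x := by
  rw [← (measurePreserving_add_right volume c).setLIntegral_comp_preimage_emb
    (measurableEmbedding_addRight c) h (Ioc (a + c) (b + c))]
  simp

lemma split (h : ℝ → ℝ≥0∞) {a b c : ℝ} (h1 : a ≤ b) (h2 : b ≤ c) :
    ∫⁻ x in Ioc a c, h x = (∫⁻ x in Ioc a b, h x) + ∫⁻ x in Ioc b c, h x := by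
  rw [← lintegral_union measurableSet_Ioc (Ioc_disjoint_Ioc_of_le le_rfl), Ioc_union_Ioc_eq_Ioc h1 h2]

lemma per {h : ℝ → ℝ≥0∞} {T : ℝ} (hT : 0 ≤ T) (hp : Function.Periodic h T) (a : ℝ) (n : ℕ) :
    ∫⁻ x in Ioc a (a + n * T), h x = n * ∫⁻ x in Ioc a (a + T), h x := by
  induction n with
  | zero => simp
  | succ n ih =>
    have : (0 : ℝ) ≤ n * T := by positivity
    push_cast
    rw [split h (b := a + n * T) (by linarith) (by linarith), ih, add_mul, add_mul, one_mul, one_mul,
      show a + (n * T + T) = a + T + n * T by ring, ← shift]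
    simp only [hp.nat_mul n _]

noncomputable def hh (L t : ℝ) : ℝ≥0∞ := ∫⁻ r in Ioi 0, ENNReal.ofReal (r ^ 3) *
  (ENNReal.ofReal (L - r * W (cos t) (sin t)) * ENNReal.ofReal (L - r * W (sin t) (cos t)))

lemma hh_per (L : ℝ) : Function.Periodic (hh L) (π / 6) := fun t => by
  have e1 : W (cos (t + π / 6)) (sin (t + π / 6)) = W (sin t) (cos t) := by
    simp only [W, cos_add, sin_add, cos_pi_div_six, sin_pi_div_six]
    rw [show (cos t * (√3 / 2) - sin t * (1 / 2)) / 2 - √3 * (sin t * (√3 / 2) + cos t * (1 / 2)) / 2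
        = -sin t by linear_combination -sin t / 4 * s3,
      show (cos t * (√3 / 2) - sin t * (1 / 2)) / 2 + √3 * (sin t * (√3 / 2) + cos t * (1 / 2)) / 2
        = sin t / 2 + √3 * cos t / 2 by linear_combination sin t / 4 * s3,
      show cos t * (√3 / 2) - sin t * (1 / 2) = -(sin t / 2 - √3 * cos t / 2) by ring, abs_neg,
      abs_neg, max_comm |_ - _|]
  have e2 : W (sin (t + π / 6)) (cos (t + π / 6)) = W (cos t) (sin t) := by
    simp only [W, cos_add, sin_add, cos_pi_div_six, sin_pi_div_six]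
    rw [show (sin t * (√3 / 2) + cos t * (1 / 2)) / 2 - √3 * (cos t * (√3 / 2) - sin t * (1 / 2)) / 2
        = -(cos t / 2 - √3 * sin t / 2) by linear_combination -cos t / 4 * s3,
      show (sin t * (√3 / 2) + cos t * (1 / 2)) / 2 + √3 * (cos t * (√3 / 2) - sin t * (1 / 2)) / 2
        = cos t by linear_combination cos t / 4 * s3,
      show sin t * (√3 / 2) + cos t * (1 / 2) = cos t / 2 + √3 * sin t / 2 by ring, abs_neg]
    grind
  simp only [hh, e1, e2, mul_comm]

lemma s3b : 1.732 < √3 ∧ √3 < 1.7321 := by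
  constructor <;> nlinarith [s3, Real.sqrt_nonneg 3]

lemma hh_ge {L t d k : ℝ} (hL : 0 < L) (ht : |t| ≤ d) (hd : d ≤ 0.262)
    (hk : ∀ u, 0 ≤ u → u * (1 - d ^ 2 / 2) ≤ d → k ≤ (1 + 2 * u ^ 2) * (1.2679 - u)) :
    ENNReal.ofReal (L ^ 6 * k / 60) ≤ hh L t := by
  have h1 : |sin t| ≤ d := abs_sin_le_abs.trans ht
  have h2 : 1 - d ^ 2 / 2 ≤ cos t := by
    have := one_sub_sq_div_two_le_cos (x := t)
    have := pow_le_pow_left₀ (abs_nonneg t) ht 2
    rw [sq_abs] at this
    linarith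
  have d0 : 0 ≤ d := (abs_nonneg _).trans ht
  have h3 : 0.965 ≤ cos t := by nlinarith
  have h4 := sin_sq_add_cos_sq t
  rw [← sq_abs] at h4
  obtain ⟨s1, s2⟩ := s3b
  have h5 := le_abs_self (sin t)
  have h6 := neg_abs_le (sin t)
  have w1 : W (cos t) (sin t) ≤ cos t := by
    refine max_le (max_le (abs_of_nonneg (by linarith)).le ?_) ?_ <;> rw [abs_le] <;>
      constructor <;> nlinarith
  have w2 : W (sin t) (cos t) ≤ (√3 * cos t + |sin t|) / 2 := by
    refine max_le (max_le (by nlinarith) ?_) ?_ <;> rw [abs_le] <;> constructor <;> nlinarith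
  have s0 := abs_nonneg (sin t)
  unfold hh
  generalize W (cos t) (sin t) = A at *
  generalize W (sin t) (cos t) = B at *
  generalize |sin t| = s at *
  generalize cos t = c at *
  set b := (√3 * c + s) / 2 with hb
  have c0 : 0 < c := by linarith
  calc _ ≤ ENNReal.ofReal (∫ r in (0 : ℝ)..L / c, r ^ 3 * ((L - r * c) * (L - r * b))) := by
        refine ENNReal.ofReal_le_ofReal ?_
        rw [intervalIntegral.integral_eq_sub_of_hasDerivAt (f := fun r =>
          L ^ 2 / 4 * r ^ 4 - L * (b + c) / 5 * r ^ 5 + b * c / 6 * r ^ 6) (fun r _ =>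
          ((((hasDerivAt_pow 4 r).const_mul _).fun_sub ((hasDerivAt_pow 5 r).const_mul _)).fun_add
            ((hasDerivAt_pow 6 r).const_mul _)).congr_deriv (by norm_num; ring))
          (Continuous.intervalIntegrable (by fun_prop) _ _)]
        have e : L ^ 2 / 4 * (L / c) ^ 4 - L * (b + c) / 5 * (L / c) ^ 5 + b * c / 6 * (L / c) ^ 6 -
            (L ^ 2 / 4 * 0 ^ 4 - L * (b + c) / 5 * 0 ^ 5 + b * c / 6 * 0 ^ 6) =
            L ^ 6 * ((1 + (s / c) ^ 2) ^ 2 * (3 - √3 - s / c)) / 60 := by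
          rw [show 1 + (s / c) ^ 2 = 1 / c ^ 2 by field_simp; linarith, hb]
          field_simp
          ring
        rw [e]
        have u0 : 0 ≤ s / c := by positivity
        have u1 : s / c * (1 - d ^ 2 / 2) ≤ d := by
          rw [div_mul_eq_mul_div, div_le_iff₀ c0]
          nlinarith
        have u2 := hk _ u0 u1
        have u3 : s / c ≤ 1 := by rw [div_le_one c0]; linarith
        generalize s / c = u at *
        gcongr
        refine u2.trans (mul_le_mul (by nlinarith) (by linarith) (by linarith) (by positivity))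
    _ ≤ _ := (lint_le (by fun_prop) (by positivity)).trans ((setLIntegral_mono' measurableSet_Ioc
        fun r hr => ?_).trans (lintegral_mono_set Ioc_subset_Ioi_self))
  have h7 : r * c ≤ L := (le_div_iff₀ c0).mp hr.2
  rw [ENNReal.ofReal_mul (pow_nonneg hr.1.le _), ENNReal.ofReal_mul (by linarith)]
  have := hr.1.le
  gcongr

lemma square {l : ℝ} (hl : 0 < l) :
    ENNReal.ofReal ((2 * l) ^ 6 * (0.0381 * π + 0.00188)) ≤ G (Q l) ω := by
  have p := pi_gt_three
  have p' := pi_lt_d4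
  have h1 : ∫⁻ t in Ioo (-π) π, hh (2 * l) t ≤ G (Q l) ω := by
    refine le_trans ?_ (lintegral_mono fun v => mul_le_mul_right (area l v) _)
    rw [polar (by unfold W; fun_prop)]
    refine lintegral_mono fun t => setLIntegral_mono' measurableSet_Ioi fun r hr => le_of_eq ?_
    have r0 : 0 < r := hr
    rw [← mul_assoc, ← mul_assoc, ← mul_assoc, ← ENNReal.ofReal_mul r0.le,
      ← Complex.polarCoord_symm_apply (r, t), Complex.norm_polarCoord_symm, sq_abs]
    simp [-Complex.ofReal_cos, -Complex.ofReal_sin, W_mul r0.le, pow_succ]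
    ring_nf
  refine le_trans ?_ h1
  have h2 := per (by positivity) (hh_per (2 * l)) (-π) 12
  have h3 := shift (hh (2 * l)) (-π) (-π + π / 6) ((6 : ℕ) * (π / 6))
  have h4 := shift (hh (2 * l)) (-(π / 12)) 0 (π / 6)
  rw [lintegral_congr ((hh_per (2 * l)).nat_mul 6), show -π + (6 : ℕ) * (π / 6) = 0 by
    push_cast; ring, show -π + π / 6 + (6 : ℕ) * (π / 6) = 0 + π / 6 by push_cast; ring] at h3
  rw [lintegral_congr (hh_per (2 * l)), show -(π / 12) + π / 6 = π / 12 by ring] at h4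
  rw [show -π + (12 : ℕ) * (π / 6) = π by push_cast; ring] at h2
  rw [Measure.restrict_congr_set Ioo_ae_eq_Ioc, h2, h3,
    split _ (b := π / 12) (by linarith) (by linarith), ← h4, add_comm (∫⁻ x in Ioc 0 _, _),
    ← split _ (by linarith) (by linarith), split _ (b := -0.1) (by linarith) (by linarith),
    split _ (a := -0.1) (b := 0.1) (by linarith) (by linarith)]
  have a1 : ∀ t, |t| ≤ 0.262 → ENNReal.ofReal ((2 * l) ^ 6 * 1.143 / 60) ≤ hh (2 * l) t :=
    fun t ht => hh_ge (by linarith) ht le_rfl fun u h0 h1 => by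
      have h : 0 ≤ 0.2714 - u := by linarith
      nlinarith [pow_nonneg h 2, pow_nonneg h 3]
  have a2 : ∀ t, |t| ≤ 0.1 → ENNReal.ofReal ((2 * l) ^ 6 * 1.19 / 60) ≤ hh (2 * l) t :=
    fun t ht => hh_ge (by linarith) ht (by norm_num) fun u h0 h1 => by nlinarith
  have lo : ∀ a b d k : ℝ, 0 ≤ k → -d ≤ a → b ≤ d → (∀ t, |t| ≤ d → ENNReal.ofReal k ≤ hh (2 * l) t) →
      ENNReal.ofReal (k * (b - a)) ≤ ∫⁻ t in Ioc a b, hh (2 * l) t := fun a b d k k0 ha hb h => by
    rw [ENNReal.ofReal_mul k0, ← Real.volume_Ioc, ← setLIntegral_const]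
    exact setLIntegral_mono' measurableSet_Ioc fun t ht =>
      h t (abs_le.mpr ⟨by linarith [ht.1], by linarith [ht.2]⟩)
  refine le_trans (le_of_eq ?_) (mul_le_mul_right (add_le_add
    (lo _ _ _ _ (by positivity) (by linarith) (by norm_num) a1) (add_le_add
    (lo _ _ _ _ (by positivity) le_rfl le_rfl a2)
    (lo _ _ _ _ (by positivity) (by norm_num) (by linarith) a1))) _)
  rw [← ENNReal.ofReal_add (by positivity) (mul_nonneg (by positivity) (by linarith)),
    ← ENNReal.ofReal_add (mul_nonneg (by positivity) (by linarith))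
      (add_nonneg (by positivity) (mul_nonneg (by positivity) (by linarith))),
    ← ENNReal.ofReal_natCast, ← ENNReal.ofReal_mul (by positivity)]
  congr 1
  push_cast
  ring

end Pool.Agent.H.MP_92974c_pr
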